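import Mathlib
import Pool.Agent.Helper760.GW.J1468
import Pool.Agent.Helper760.OracleSim4

set_option autoImplicit false

namespace Pool.Agent.Results.MP_17b90d_lc.RandomOracleGW

open MeasureTheory
open Pool.Agent.Helper760.GW

theorem good_of_bad (P : (ℕ → Bool) → Prop) (ε : ℝ) (hε : 0 ≤ ε)
    (h : coin {A | ¬ P A} ≤ ENNReal.ofReal ε) : ENNReal.ofReal (1 - ε) ≤ coin {A | P A} := by
  have hp : IsProbabilityMeasure coin := by unfold coin; infer_instance
  have h1 : (1 : ENNReal) ≤ coin {A | P A} + coin {A | ¬ P A} := by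
    have h2 : (Set.univ : Set (ℕ → Bool)) ⊆ {A | P A} ∪ {A | ¬ P A} := by
      intro A _
      by_cases hA : P A
      · exact Or.inl hA
      · exact Or.inr hA
    calc (1 : ENNReal) = coin Set.univ := measure_univ.symm
      _ ≤ coin ({A | P A} ∪ {A | ¬ P A}) := measure_mono h2
      _ ≤ _ := measure_union_le _ _
  rw [ENNReal.ofReal_sub _ hε, ENNReal.ofReal_one]
  exact tsub_le_iff_right.2 (h1.trans (by gcongr))

/-- **A random oracle does not change the Gray–Wyner profile.** The first two clauses say that the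
optimal decompressors which are quantified over exist. -/
theorem result :
    (∃ D : List Bool → List Bool →. List Bool, OptimalCond D) ∧
    (∃ V : (ℕ → Bool) → List Bool → List Bool →. List Bool, OptimalOracle V) ∧
    ∀ D : List Bool → List Bool →. List Bool, OptimalCond D →
    ∀ V : (ℕ → Bool) → List Bool → List Bool →. List Bool, OptimalOracle V →
    ∀ pr : List Bool → List Bool → List Bool, Computable₂ pr →
      (∀ x y x' y', pr x y = pr x' y' → x = x' ∧ y = y') →
    ∀ ε : ℝ, 0 < ε → ∃ c : ℝ, ∀ n : ℕ, 2 ≤ n → ∀ x y : List Bool,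
      condC D (pr x y) [] ≤ n →
        ENNReal.ofReal (1 - ε) ≤
          coin {A | GW (V A) x y ⊆ GWplus (c * Real.logb 2 n) D x y} ∧
        coin {A | ¬ GW (V A) x y ⊆ GWplus (c * Real.logb 2 n) D x y} ≤ ENNReal.ofReal ε := by
  refine ⟨Pool.Agent.Helper760.OracleC.exists_optimalCond, exists_optimalOracle, ?_⟩
  intro D hD V hV pr hpr hinj ε hε
  obtain ⟨c, hc⟩ := J1468.final D hD V hV pr hpr hinj ε hε
  refine ⟨c, fun n hn x y hxy => ?_⟩
  have h := hc n hn x y hxy
  exact ⟨good_of_bad _ ε hε.le h, h⟩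

end Pool.Agent.Results.MP_17b90d_lc.RandomOracleGW
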